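import Pool.Agent.N347.LA.Defs
import Pool.Agent.N347.LA.Fac

/-!
# Project LA (helper347): INIT, the initial state (helper767)
-/

set_option autoImplicit false

namespace Pool.Agent.N767.LAINIT

open Finset Pool.Agent.N347.LA

/-- numbers below given numbers with prescribed sum over one set -/
lemma sel1 {V : Type} [DecidableEq V] (F : Finset V) (s : V → ℕ) :
    ∀ n, n ≤ ∑ u ∈ F, s u → ∃ y : V → ℕ, (∀ v, y v ≤ s v) ∧ ∑ u ∈ F, y u = n := by
  induction F using Finset.induction_on with
  | empty =>
    intro n hn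
    rw [sum_empty] at hn
    exact ⟨fun _ => 0, fun _ => Nat.zero_le _, by rw [sum_empty]; omega⟩
  | insert a F ha ih =>
    intro n hn
    rw [sum_insert ha] at hn
    obtain ⟨y, h1, h2⟩ := ih (n - min n (s a)) (by omega)
    refine ⟨fun v => if v = a then min n (s a) else y v, fun v => ?_, ?_⟩
    · show (if v = a then min n (s a) else y v) ≤ s v
      split_ifs with h
      · rw [h]; exact min_le_right _ _
      · exact h1 v
    · rw [sum_insert ha, if_pos rfl]
      have h3 : ∑ x ∈ F, (if x = a then min n (s a) else y x) = ∑ x ∈ F, y x := by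
        refine sum_congr rfl fun x hx => ?_
        rw [if_neg (fun h : x = a => ha (h ▸ hx))]
      rw [h3, h2]
      have := min_le_left n (s a)
      omega

/-- the same for all classes of a map -/
lemma sel {V Q : Type} [Fintype V] [DecidableEq V] [DecidableEq Q] (f : V → Q) (s : V → ℕ)
    (n : ℕ) (h : ∀ v, n ≤ ∑ u ∈ univ.filter (fun u => f u = f v), s u) :
    ∃ y : V → ℕ, (∀ v, y v ≤ s v) ∧ ∀ v, ∑ u ∈ univ.filter (fun u => f u = f v), y u = n := by
  have h' : ∀ q : Q, ∃ y : V → ℕ, (∀ v, y v ≤ s v) ∧
      ((∃ v, f v = q) → ∑ u ∈ univ.filter (fun u => f u = q), y u = n) := by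
    intro q
    by_cases hq : ∃ v, f v = q
    · obtain ⟨v, rfl⟩ := hq
      obtain ⟨y, h1, h2⟩ := sel1 _ s n (h v)
      exact ⟨y, h1, fun _ => h2⟩
    · exact ⟨s, fun _ => le_rfl, fun h => absurd h hq⟩
  choose Y hY1 hY2 using h'
  refine ⟨fun v => Y (f v) v, fun v => hY1 _ _, fun v => ?_⟩
  rw [← hY2 (f v) ⟨v, rfl⟩]
  refine sum_congr rfl fun u hu => ?_
  rw [mem_filter] at hu
  show Y (f u) u = Y (f v) u
  rw [hu.2]

/-- the sum of a symmetric matrix with even diagonal is even -/
lemma even_sum {V : Type} [Fintype V] (T : V → V → ℕ) (hTs : ∀ u v, T u v = T v u)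
    (hTd : ∀ v, Even (T v v)) : Even (∑ u, ∑ v, T u v) := by
  classical
  rw [← sum_product', even_iff_two_dvd, ← CharP.cast_eq_zero_iff (ZMod 2) 2, Nat.cast_sum]
  refine sum_involution (fun p _ => (p.2, p.1)) ?_ ?_ ?_ ?_
  · intro p _
    show ((T p.1 p.2 : ℕ) : ZMod 2) + ((T p.2 p.1 : ℕ) : ZMod 2) = 0
    rw [hTs p.2 p.1]
    exact CharTwo.add_self_eq_zero _
  · intro p _ hp heq
    apply hp
    have h1 : p.2 = p.1 := congrArg Prod.fst heq
    show ((T p.1 p.2 : ℕ) : ZMod 2) = 0
    rw [h1, CharP.cast_eq_zero_iff (ZMod 2) 2, ← even_iff_two_dvd]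
    exact hTd _
  · intro p _
    exact mem_product.2 ⟨mem_univ _, mem_univ _⟩
  · intro p _
    rfl

/-- the matrix with the additional rows -/
def TT {V : Type} [DecidableEq V] (T : V → V → ℕ) (rep : V → V) (y s : V → ℕ) (e : ℕ) :
    V ⊕ Option V → V ⊕ Option V → ℕ
  | .inl u, .inl v => T u v
  | .inl v, .inr (some x) => if rep v = x then y v else 0
  | .inr (some x), .inl v => if rep v = x then y v else 0
  | .inl v, .inr none => s v - y v
  | .inr none, .inl v => s v - y v
  | .inr none, .inr none => e
  | .inr (some _), .inr _ => 0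
  | .inr none, .inr (some _) => 0

/-- the prescribed subgraph -/
def JJ {V : Type} (J : V → V → ℕ) : V ⊕ Option V → V ⊕ Option V → ℕ
  | .inl u, .inl v => J u v
  | .inl _, .inr _ => 0
  | .inr _, _ => 0

open Classical in
/-- **LA/INIT** -/
theorem init {V : Type} [Fintype V] (k : ℕ) (T : V → V → ℕ) (τ : V → ℕ) (J : V → V → ℕ)
    (hTs : ∀ u v, T u v = T v u) (hTd : ∀ v, Even (T v v)) (hJs : ∀ u v, J u v = J v u)
    (hJd : ∀ v, J v v = 0) (hJe : ∀ v, Even (∑ u, J v u)) (hJT : ∀ u v, k * J u v ≤ T u v)
    (hrow : ∀ v, ∑ u, T v u ≤ 2 * k * τ v)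
    (hz : ∀ v, 2 * k ≤ ∑ u ∈ univ.filter (fun u =>
      Relation.ReflTransGen (fun x y => 0 < J x y) v u), (2 * k * τ u - ∑ w, T u w)) :
    ∃ (m : Fin k → V → V → ℕ) (z : Fin k → V → ℕ), (∀ c u v, m c u v = m c v u) ∧
      (∀ c v, Even (m c v v)) ∧ (∀ c v, ∑ u, m c v u + z c v = 2 * τ v) ∧
      (∀ u v, ∑ c, m c u v = T u v) ∧ ∀ c, Conn (m c) (z c) := by
  rcases Nat.eq_zero_or_pos k with hk | hk
  · subst hk
    refine ⟨fun _ _ _ => 0, fun _ _ => 0, fun c => c.elim0, fun c => c.elim0, fun c => c.elim0,
      fun u v => ?_, fun c => c.elim0⟩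
    have h1 := hrow u
    have h2 : T u v ≤ ∑ w, T u w := single_le_sum (fun _ _ => Nat.zero_le _) (mem_univ v)
    rw [univ_eq_empty, sum_empty]
    omega
  -- the classes
  let rel : V → V → Prop := Relation.ReflTransGen (fun x y => 0 < J x y)
  have hrel : Equivalence rel := by
    refine ⟨fun x => Relation.ReflTransGen.refl, fun {x y} h => ?_, fun h1 h2 => h1.trans h2⟩
    have : Std.Symm (fun x y => 0 < J x y) := ⟨fun a b hab => by rw [hJs]; exact hab⟩
    exact (Relation.ReflTransGen.stdSymm (r := fun x y => 0 < J x y)).symm _ _ h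
  let E : Setoid V := ⟨rel, hrel⟩
  let rep : V → V := fun v => (Quotient.mk E v).out
  have hmk : ∀ v, Quotient.mk E (rep v) = Quotient.mk E v := fun v => Quotient.out_eq _
  have hrep : ∀ u v, rep u = rep v ↔ rel v u := by
    intro u v
    constructor
    · intro h
      have h1 : Quotient.mk E u = Quotient.mk E v := by rw [← hmk u, h, hmk v]
      exact hrel.symm (Quotient.exact h1)
    · intro h
      have h1 : Quotient.mk E v = Quotient.mk E u := Quotient.sound h
      show (Quotient.mk E u).out = (Quotient.mk E v).out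
      rw [h1]
  have hrr : ∀ v, rep (rep v) = rep v := by
    intro v
    show (Quotient.mk E (rep v)).out = (Quotient.mk E v).out
    rw [hmk]
  set s : V → ℕ := fun u => 2 * k * τ u - ∑ w, T u w with hs
  obtain ⟨y, hy1, hy2⟩ := sel rep s (2 * k) (fun v => by
    have h1 : univ.filter (fun u => rep u = rep v) = univ.filter (fun u =>
        Relation.ReflTransGen (fun x y => 0 < J x y) v u) := by
      ext u
      simp only [mem_filter, mem_univ, true_and]
      exact hrep u v
    rw [h1]
    exact hz v)
  set S' : ℕ := ∑ v, (s v - y v) with hS'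
  have hss : ∀ v, ∑ w, T v w + s v = 2 * k * τ v := fun v => by
    have := hrow v
    simp only [hs]
    omega
  -- the class sums
  have hcls : ∀ x, ∑ v, (if rep v = x then y v else 0) = if rep x = x then 2 * k else 0 := by
    intro x
    split_ifs with h
    · rw [← hy2 x, sum_filter, h]
    · refine sum_eq_zero fun v _ => ?_
      rw [if_neg]
      intro h'
      apply h
      rw [← h', hrr]
  -- `S'` is even
  have hyE : Even (∑ v, y v) := by
    have h1 : ∑ v, y v = ∑ x, ∑ v, (if rep v = x then y v else 0) := by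
      rw [sum_comm]
      refine sum_congr rfl fun v _ => ?_
      rw [sum_ite_eq]
      simp
    rw [h1]
    refine Finset.even_sum _ fun x _ => ?_
    rw [hcls]
    split_ifs
    · exact even_two_mul k
    · exact Even.zero
  have hSE : Even S' := by
    have h1 : ∑ u, ∑ w, T u w + ∑ u, s u = 2 * (∑ u, k * τ u) := by
      rw [← sum_add_distrib, mul_sum]
      refine sum_congr rfl fun u _ => ?_
      rw [hss]
      ring
    have h2 : S' + ∑ v, y v = ∑ v, s v := by
      rw [hS', ← sum_add_distrib]
      exact sum_congr rfl fun v _ => Nat.sub_add_cancel (hy1 v)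
    have h3 := even_sum T hTs hTd
    rw [even_iff_two_dvd] at h3 hyE ⊢
    omega
  -- degrees
  let d : V ⊕ Option V → ℕ := fun b => b.elim (fun v => ∑ u, J v u) (fun _ => 0)
  let M : V ⊕ Option V → ℕ := fun b => b.elim (fun v => 2 * τ v)
    (fun o => o.elim S' (fun x => if rep x = x then 2 else 0))
  have hdM : ∀ b, M b = d b + 2 * ((M b - d b) / 2) := by
    intro b
    rcases b with v | (_ | x)
    · have h1 : k * ∑ u, J v u ≤ k * (2 * τ v) := by
        calc k * ∑ u, J v u = ∑ u, k * J v u := mul_sum _ _ _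
          _ ≤ ∑ u, T v u := sum_le_sum fun u _ => hJT v u
          _ ≤ 2 * k * τ v := hrow v
          _ = k * (2 * τ v) := by ring
      have h2 : ∑ u, J v u ≤ 2 * τ v := Nat.le_of_mul_le_mul_left h1 hk
      obtain ⟨e, he⟩ := hJe v
      show 2 * τ v = (∑ u, J v u) + 2 * ((2 * τ v - ∑ u, J v u) / 2)
      omega
    · obtain ⟨e, he⟩ := hSE
      show S' = 0 + 2 * ((S' - 0) / 2)
      omega
    · show (if rep x = x then 2 else 0) = 0 + 2 * (((if rep x = x then 2 else 0) - 0) / 2)
      split_ifs <;> rfl
  obtain ⟨C, hC1, hC2, hC3, hC4, hC5⟩ := factors k (TT T rep y s ((k - 1) * S'))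
    (by
      intro b b'
      rcases b with u | (_ | x) <;> rcases b' with v | (_ | x') <;> first | rfl | exact hTs _ _)
    (by
      intro b
      rcases b with u | (_ | x)
      · exact hTd u
      · exact hSE.mul_left _
      · exact Even.zero)
    (fun _ => JJ J)
    (by
      intro i b b'
      rcases b with u | x <;> rcases b' with v | x' <;> first | rfl | exact hJs _ _)
    (by
      intro i b
      rcases b with u | x
      · exact hJd u
      · rfl)
    d (fun b => (M b - d b) / 2) M
    (by
      intro i b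
      rcases b with u | x
      · rw [Fintype.sum_sum_type]
        have h1 : ∑ x : Option V, JJ J (.inl u) (.inr x) = 0 := sum_eq_zero fun _ _ => rfl
        rw [h1, add_zero]
        rfl
      · exact sum_eq_zero fun _ _ => by rfl)
    hdM
    (by
      intro b
      rw [Fintype.sum_sum_type, Fintype.sum_option]
      rcases b with u | (_ | x)
      · show (∑ v, T u v) + ((s u - y u) + ∑ x, (if rep u = x then y u else 0)) = k * (2 * τ u)
        rw [sum_ite_eq]
        simp only [mem_univ, if_true]
        have h1 := hss u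
        have h2 := hy1 u
        have h3 : 2 * k * τ u = k * (2 * τ u) := by ring
        omega
      · show (∑ v, (s v - y v)) + ((k - 1) * S' + ∑ _x : V, 0) = k * S'
        rw [sum_const_zero, add_zero, ← hS']
        obtain ⟨l, rfl⟩ : ∃ l, k = l + 1 := ⟨k - 1, by omega⟩
        rw [Nat.add_sub_cancel]
        ring
      · show (∑ v, (if rep v = x then y v else 0)) + (0 + ∑ _x : V, 0) =
          k * (if rep x = x then 2 else 0)
        rw [hcls, sum_const_zero]
        split_ifs <;> ring)
    (by
      intro b b'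
      rw [sum_const, card_univ, Fintype.card_fin, smul_eq_mul]
      rcases b with u | x
      · rcases b' with v | x'
        · exact hJT u v
        · show k * 0 ≤ _
          rw [mul_zero]; exact Nat.zero_le _
      · show k * 0 ≤ _
        rw [mul_zero]; exact Nat.zero_le _)
  refine ⟨fun c u v => C c (.inl u) (.inl v), fun c v => ∑ o : Option V, C c (.inl v) (.inr o),
    fun c u v => hC1 _ _ _, fun c v => hC2 _ _, fun c v => ?_, fun u v => hC4 _ _, fun c v => ?_⟩
  · have h1 := hC3 c (.inl v)
    rw [Fintype.sum_sum_type] at h1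
    exact h1
  · -- the row of the representative
    set x := rep v with hx
    have h1 := hC3 c (.inr (some x))
    have h2 : M (.inr (some x)) = 2 := by
      show (if rep x = x then 2 else 0) = 2
      rw [if_pos (hrr v)]
    rw [h2] at h1
    obtain ⟨b', _, hb'⟩ : ∃ b' ∈ (univ : Finset (V ⊕ Option V)), 0 < C c (.inr (some x)) b' := by
      by_contra hcon
      push Not at hcon
      have h3 : ∑ b', C c (.inr (some x)) b' = 0 :=
        sum_eq_zero fun b' hb => Nat.le_zero.1 (hcon b' hb)
      omega
    have h3 : C c (.inr (some x)) b' ≤ TT T rep y s ((k - 1) * S') (.inr (some x)) b' := by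
      rw [← hC4]
      exact single_le_sum (f := fun i => C i (.inr (some x)) b') (fun _ _ => Nat.zero_le _)
        (mem_univ c)
    rcases b' with u | o
    · have h4 : C c (.inr (some x)) (.inl u) ≤ if rep u = x then y u else 0 := h3
      have h5 : rep u = x := by
        by_contra h
        rw [if_neg h] at h4
        omega
      refine ⟨u, ?_, ?_⟩
      · have h6 : rel v u := (hrep u v).1 h5
        refine Relation.ReflTransGen.mono (r := fun x y => 0 < J x y) ?_ _ _ h6
        intro a b hab
        exact lt_of_lt_of_le hab (hC5 c (.inl a) (.inl b))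
      · rw [hC1] at hb'
        exact lt_of_lt_of_le hb' (single_le_sum (f := fun o => C c (.inl u) (.inr o))
          (fun _ _ => Nat.zero_le _) (mem_univ (some x)))
    · have h4 : C c (.inr (some x)) (.inr o) ≤ 0 := h3
      omega

end Pool.Agent.N767.LAINIT
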