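import Pool.Agent.N183.U8.StmF

/-!
# Project GS (helper183, MP_09799c_ag), (R): descent of matrices to the rational numbers (helper767).
-/

set_option autoImplicit false

namespace Pool.Agent.N767.GSR

open Module Pool.Agent.N183.U8

lemma l_mul (l : ℂ →ₗ[ℚ] ℚ) (q : ℚ) (z : ℂ) : l ((q : ℂ) * z) = q * l z := by
  rw [← Rat.smul_def, map_smul, smul_eq_mul]

lemma l_mul' (l : ℂ →ₗ[ℚ] ℚ) (q : ℚ) (z : ℂ) : l (z * (q : ℂ)) = l z * q := by
  rw [mul_comm, l_mul, mul_comm]

theorem R : S_R := by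
  intro B _ _ C D hCD
  let W : Submodule ℚ ℂ := Submodule.span ℚ (Set.range fun p : B × B => C p.1 p.2)
  have hfd : FiniteDimensional ℚ W := FiniteDimensional.span_of_finite ℚ (Set.finite_range _)
  have hmem : ∀ p q : B, C p q ∈ W := fun p q => Submodule.subset_span ⟨(p, q), rfl⟩
  let b := Module.finBasis ℚ W
  have hl0 : ∀ j, ∃ l : ℂ →ₗ[ℚ] ℚ, l ∘ₗ W.subtype = b.coord j := fun j =>
    LinearMap.exists_extend (b.coord j)
  choose l hl using hl0
  have hrep : ∀ p q : B, C p q = ∑ j, (b j : ℂ) * ((l j (C p q) : ℚ) : ℂ) := by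
    intro p q
    have h1 := congrArg Subtype.val (b.sum_repr ⟨C p q, hmem p q⟩)
    have h2 : ∀ j, l j (C p q) = b.repr ⟨C p q, hmem p q⟩ j := by
      intro j
      have := LinearMap.congr_fun (hl j) ⟨C p q, hmem p q⟩
      exact this
    have h3 : (C p q : ℂ) = ∑ j, (b.repr ⟨C p q, hmem p q⟩ j : ℚ) • (b j : ℂ) := by
      refine h1.symm.trans ?_
      rw [Submodule.coe_sum]
      rfl
    conv_lhs => rw [h3]
    refine Finset.sum_congr rfl fun j _ => ?_
    rw [h2 j, Rat.smul_def, mul_comm]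
  let t : Fin (finrank ℚ W) → Matrix B B ℚ := fun j => Matrix.of fun p q => l j (C p q)
  have hC : C = ∑ j, (b j : ℂ) • (t j).map (fun x : ℚ => (x : ℂ)) := by
    ext p q
    rw [Matrix.sum_apply]
    conv_lhs => rw [hrep p q]
    rfl
  have hex : ∃ j, (t j).map (fun x : ℚ => (x : ℂ)) * D ≠ D * (t j).map (fun x : ℚ => (x : ℂ)) := by
    by_contra hcon
    push Not at hcon
    apply hCD
    rw [hC, Finset.sum_mul, Finset.mul_sum]
    refine Finset.sum_congr rfl fun j _ => ?_
    rw [Matrix.smul_mul, Matrix.mul_smul, hcon j]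
  obtain ⟨j, hj⟩ := hex
  refine ⟨t j, hj, ?_, ?_, ?_⟩
  · intro R R' h
    ext i k
    have h4 := congrArg (l j) (congrFun (congrFun h i) k)
    rw [Matrix.mul_apply, Matrix.mul_apply, map_sum, map_sum] at h4
    rw [Matrix.mul_apply, Matrix.mul_apply]
    simp only [Matrix.map_apply, l_mul, l_mul'] at h4
    exact h4
  · intro R h
    have h4 := congrArg (l j) h
    simp only [Matrix.trace, Matrix.diag, Matrix.mul_apply, map_sum, Matrix.map_apply, l_mul',
      map_zero] at h4
    simp only [Matrix.trace, Matrix.diag, Matrix.mul_apply]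
    exact h4
  · intro R R' h
    ext i k
    have h4 := congrArg (l j) (congrFun (congrFun h i) k)
    rw [Matrix.mul_apply, Matrix.mul_apply, map_sum, map_sum] at h4
    rw [Matrix.mul_apply, Matrix.mul_apply]
    simp only [Matrix.map_apply, Matrix.transpose_apply, l_mul, l_mul'] at h4
    exact h4

end Pool.Agent.N767.GSR
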