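import Pool.Agent.N576.MX.Defs

/-!
Project MX (helper576), RUNX: many prefixes of comparable size have a proportion on one run
(helper767).
-/

set_option autoImplicit false

namespace Pool.Agent.N767.MX

open Pool.Agent.H499R2 Pool.Agent.N576.MX

/-- counting with a function which doubles in two steps -/
lemma chain_count (σ : ℕ → ℕ) : ∀ (k s : ℕ) (Λ : Finset ℕ),
    (∀ n ∈ Λ, s ≤ σ n ∧ σ n < 2 ^ k * s) →
    (∀ a ∈ Λ, ∀ b ∈ Λ, ∀ c ∈ Λ, a < b → b < c → 2 * σ a ≤ σ c) → Λ.card ≤ 2 * k := by
  intro k
  induction k with
  | zero =>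
    intro s Λ h1 _
    have h2 : Λ = ∅ := by
      rw [Finset.eq_empty_iff_forall_notMem]
      intro n hn
      have := h1 n hn
      omega
    rw [h2]
    simp
  | succ k ih =>
    intro s Λ h1 h2
    by_cases hc : Λ.card ≤ 2
    · omega
    push Not at hc
    have hne : Λ.Nonempty := Finset.card_pos.1 (by omega)
    set a := Λ.min' hne with ha
    have ham : a ∈ Λ := Finset.min'_mem _ _
    have hc1 : (Λ.erase a).card = Λ.card - 1 := Finset.card_erase_of_mem ham
    have hne1 : (Λ.erase a).Nonempty := Finset.card_pos.1 (by omega)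
    set b := (Λ.erase a).min' hne1 with hb
    have hbm : b ∈ Λ.erase a := Finset.min'_mem _ _
    have hc2 : ((Λ.erase a).erase b).card = (Λ.erase a).card - 1 := Finset.card_erase_of_mem hbm
    have hbm' : b ∈ Λ := Finset.mem_of_mem_erase hbm
    have hab : a < b := lt_of_le_of_ne (Finset.min'_le _ _ hbm') (Finset.ne_of_mem_erase hbm).symm
    have hsub : ∀ n ∈ (Λ.erase a).erase b, n ∈ Λ := fun n hn =>
      Finset.mem_of_mem_erase (Finset.mem_of_mem_erase hn)
    have h3 := ih (2 * s) ((Λ.erase a).erase b) (fun n hn => by
      have hn1 : n ∈ Λ.erase a := Finset.mem_of_mem_erase hn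
      have hbn : b < n :=
        lt_of_le_of_ne (Finset.min'_le _ _ hn1) (Finset.ne_of_mem_erase hn).symm
      have h4 := h2 a ham b hbm' n (hsub n hn) hab hbn
      have h5 := h1 a ham
      have h6 := h1 n (hsub n hn)
      refine ⟨by omega, ?_⟩
      calc σ n < 2 ^ (k + 1) * s := h6.2
        _ = 2 ^ k * (2 * s) := by ring) (fun x hx y hy z hz =>
      h2 x (hsub x hx) y (hsub y hy) z (hsub z hz))
    omega

/-- the last block -/
lemma strip (b : Bool) (N : List Bool) : ∃ (g : List Bool) (t : ℕ),
    N = g ++ List.replicate t b ∧ Tst g b := by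
  induction N using List.reverseRecOn with
  | nil => exact ⟨[], 0, rfl, fun h hh => by simpa using congrArg List.length hh⟩
  | append_singleton N x ih =>
    by_cases hx : x = b
    · obtain ⟨g, t, h1, h2⟩ := ih
      refine ⟨g, t + 1, ?_, h2⟩
      rw [h1, hx, List.replicate_succ', List.append_assoc]
    · refine ⟨N ++ [x], 0, by simp, ?_⟩
      intro h hh
      have := List.append_inj_right' hh rfl
      simp at this
      exact hx this

/-- a turn doubles the size -/
lemma sz_turn (h : List Bool) (c : Bool) : 2 * sz h ≤ sz (h ++ [!c] ++ [c]) := by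
  rw [← sz_pq, ← sz_pq, desc_snoc, desc_snoc]
  cases c
  · show 2 * ((desc root h).p + (desc root h).q) ≤
      ((desc root h).p + ((desc root h).p + (desc root h).q)) +
        ((desc root h).p + (desc root h).q)
    omega
  · show 2 * ((desc root h).p + (desc root h).q) ≤
      ((desc root h).p + (desc root h).q) +
        (((desc root h).p + (desc root h).q) + (desc root h).q)
    omega

/-- equality of the letter after a prefix -/
lemma next_eq {g P : List Bool} {b c : Bool} (h1 : g ++ [b] <+: P) (h2 : g ++ [c] <+: P) :
    b = c := by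
  have h3 := List.prefix_of_prefix_length_le h1 h2 (by simp)
  have h4 := h3.eq_of_length (by simp)
  have := List.append_inj_right' h4 rfl
  simpa using this

theorem runx : RUNX := by
  intro P A s k hs hA
  classical
  -- the block of a prefix
  have hex : ∀ N : List Bool, ∃ (g : List Bool) (c : Bool), N ∈ A →
      Tst g c ∧ ∃ t, N = rn g c t ∧ rn g c (t + 1) <+: P := by
    intro N
    by_cases hN : N ∈ A
    · obtain ⟨⟨b, hb⟩, _⟩ := hA N hN
      obtain ⟨g, t, h1, h2⟩ := strip b N
      refine ⟨g, b, fun _ => ⟨h2, t, h1, ?_⟩⟩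
      unfold rn
      rw [List.replicate_succ', ← List.append_assoc, ← h1]
      exact hb
    · exact ⟨[], true, fun h => absurd h hN⟩
  choose g c hgc using hex
  have hst : ∀ N ∈ A, ∃ t, N = rn (g N) (c N) t ∧ rn (g N) (c N) (t + 1) <+: P :=
    fun N hN => (hgc N hN).2
  have hT : ∀ N ∈ A, Tst (g N) (c N) := fun N hN => (hgc N hN).1
  have hgc1 : ∀ N ∈ A, g N ++ [c N] <+: P := by
    intro N hN
    obtain ⟨t, _, h2⟩ := hst N hN
    refine List.IsPrefix.trans ?_ h2
    unfold rn
    rw [List.replicate_succ]
    exact ⟨List.replicate t (c N), by simp⟩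
  have hgP : ∀ N ∈ A, g N <+: P := fun N hN => (List.prefix_append _ _).trans (hgc1 N hN)
  have hgN : ∀ N ∈ A, g N <+: N := by
    intro N hN
    obtain ⟨t, h1, _⟩ := hst N hN
    conv_rhs => rw [h1]
    exact List.prefix_append _ _
  set L : List Bool → ℕ := fun N => (g N).length with hL
  set σ : ℕ → ℕ := fun n => sz (P.take n) with hσ
  have htake : ∀ N ∈ A, P.take (L N) = g N := fun N hN =>
    (List.prefix_iff_eq_take.1 (hgP N hN)).symm
  -- blocks with the same length are equal
  have hgeq : ∀ N ∈ A, ∀ N' ∈ A, L N = L N' → g N = g N' ∧ c N = c N' := by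
    intro N hN N' hN' h
    have h1 : g N = g N' := by rw [← htake N hN, ← htake N' hN', h]
    refine ⟨h1, ?_⟩
    have h2 := hgc1 N hN
    rw [h1] at h2
    exact next_eq h2 (hgc1 N' hN')
  -- the later block starts after the word
  have hlater : ∀ N ∈ A, ∀ N' ∈ A, L N < L N' → N <+: g N' := by
    intro N hN N' hN' hlt
    obtain ⟨t, h1, h2⟩ := hst N hN
    have hNP : N <+: P := by
      refine List.IsPrefix.trans ?_ h2
      conv_lhs => rw [h1]
      unfold rn
      rw [List.replicate_succ', ← List.append_assoc]
      exact List.prefix_append _ _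
    have hlen : N.length = L N + t := by
      conv_lhs => rw [h1]
      unfold rn
      simp [hL]
    by_cases hle : N.length ≤ L N'
    · exact List.prefix_of_prefix_length_le hNP (hgP N' hN') hle
    · exfalso
      push Not at hle
      -- `g N' = g N ++ replicate j c`
      obtain ⟨j, hj⟩ : ∃ j, L N' = L N + (j + 1) := ⟨L N' - L N - 1, by omega⟩
      have hjt : j + 1 ≤ t := by omega
      have h3 : rn (g N) (c N) (j + 1) <+: P := by
        refine List.IsPrefix.trans ?_ h2
        unfold rn
        refine ⟨List.replicate (t + 1 - (j + 1)) (c N), ?_⟩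
        rw [List.append_assoc, ← List.replicate_add]
        congr 2
        omega
      have h4 : g N' = rn (g N) (c N) (j + 1) := by
        have h5 := List.prefix_of_prefix_length_le (hgP N' hN') h3 (by
          unfold rn
          simp only [List.length_append, List.length_replicate]
          exact hj.le)
        apply h5.eq_of_length
        unfold rn
        simp only [List.length_append, List.length_replicate]
        exact hj
      have h6 : rn (g N) (c N) (j + 1) ++ [c N] <+: P := by
        refine List.IsPrefix.trans ?_ h2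
        unfold rn
        refine ⟨List.replicate (t + 1 - (j + 2)) (c N), ?_⟩
        rw [List.append_assoc, List.append_assoc, ← List.replicate_one,
          ← List.replicate_add, ← List.replicate_add]
        congr 2
        omega
      have h7 := hgc1 N' hN'
      rw [h4] at h7
      have h8 : c N = c N' := next_eq h6 h7
      apply hT N' hN' (rn (g N) (c N) j)
      rw [h4, ← h8]
      unfold rn
      rw [List.replicate_succ', List.append_assoc]
  -- three blocks
  have hthree : ∀ N ∈ A, ∀ N' ∈ A, ∀ N'' ∈ A, L N < L N' → L N' < L N'' →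
      2 * sz (g N) ≤ sz (g N'') := by
    intro N hN N' hN' N'' hN'' h1 h2
    obtain ⟨h, x, hx⟩ : ∃ (h : List Bool) (x : Bool), g N' = h ++ [x] := by
      rcases List.eq_nil_or_concat (g N') with h3 | ⟨h, x, h3⟩
      · exfalso
        have : L N' = 0 := by simp [hL, h3]
        omega
      · exact ⟨h, x, by rw [h3, List.concat_eq_append]⟩
    have hxc : x = !(c N') := by
      by_contra hcon
      have hxc' : x = c N' := by
        revert hcon
        cases x <;> cases c N' <;> simp
      exact hT N' hN' h (by rw [hx, hxc'])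
    have h3 : g N <+: h := by
      refine List.prefix_of_prefix_length_le (hgP N hN) ?_ ?_
      · refine List.IsPrefix.trans ?_ (hgP N' hN')
        rw [hx]
        exact List.prefix_append _ _
      · have : L N' = h.length + 1 := by simp [hL, hx]
        have : L N = (g N).length := rfl
        omega
    have h4 : h ++ [!(c N')] ++ [c N'] <+: g N'' := by
      have h5 := hgc1 N' hN'
      rw [hx, hxc] at h5
      refine List.prefix_of_prefix_length_le h5 (hgP N'' hN'') ?_
      have h6 : L N' = h.length + 1 := by simp [hL, hx]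
      have h7 : L N'' = (g N'').length := rfl
      simp only [List.length_append, List.length_singleton]
      omega
    calc 2 * sz (g N) ≤ 2 * sz h := Nat.mul_le_mul_left _ (sz_prefix h3)
      _ ≤ sz (h ++ [!(c N')] ++ [c N']) := sz_turn h (c N')
      _ ≤ sz (g N'') := sz_prefix h4
  -- the number of blocks
  set Λ : Finset ℕ := A.image L with hΛ
  have hΛcard : Λ.card ≤ 2 * k + 1 := by
    rcases Λ.eq_empty_or_nonempty with h0 | h0
    · rw [h0]; simp
    set a := Λ.min' h0 with ha
    have ham : a ∈ Λ := Finset.min'_mem _ _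
    have h1 : (Λ.erase a).card = Λ.card - 1 := Finset.card_erase_of_mem ham
    have h2 := chain_count σ k s (Λ.erase a) (by
      intro n hn
      have hn1 : n ∈ Λ := Finset.mem_of_mem_erase hn
      have han : a < n :=
        lt_of_le_of_ne (Finset.min'_le _ _ hn1) (Finset.ne_of_mem_erase hn).symm
      obtain ⟨N, hN, hNa⟩ := Finset.mem_image.1 ham
      obtain ⟨N', hN', hNn⟩ := Finset.mem_image.1 hn1
      have h3 := hlater N hN N' hN' (by omega)
      have h4 : σ n = sz (g N') := by
        rw [hσ, ← hNn]
        simp only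
        rw [htake N' hN']
      rw [h4]
      exact ⟨(hA N hN).2.1.trans (sz_prefix h3),
        (sz_prefix (hgN N' hN')).trans_lt (hA N' hN').2.2⟩) (by
      intro x hx y hy z hz hxy hyz
      obtain ⟨N, hN, hNx⟩ := Finset.mem_image.1 (Finset.mem_of_mem_erase hx)
      obtain ⟨N', hN', hNy⟩ := Finset.mem_image.1 (Finset.mem_of_mem_erase hy)
      obtain ⟨N'', hN'', hNz⟩ := Finset.mem_image.1 (Finset.mem_of_mem_erase hz)
      have h3 := hthree N hN N' hN' N'' hN'' (by omega) (by omega)
      have h4 : σ x = sz (g N) := by
        rw [hσ, ← hNx]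
        simp only
        rw [htake N hN]
      have h5 : σ z = sz (g N'') := by
        rw [hσ, ← hNz]
        simp only
        rw [htake N'' hN'']
      rw [h4, h5]
      exact h3)
    omega
  -- the pigeonhole principle
  rcases A.eq_empty_or_nonempty with h0 | h0
  · refine ⟨[], true, ∅, by simp, by simp [h0], by simp⟩
  obtain ⟨n, hn, hmax⟩ := Finset.exists_max_image Λ (fun n => (A.filter (fun N => L N = n)).card)
    (h0.image L)
  obtain ⟨N₀, hN₀, hN₀n⟩ := Finset.mem_image.1 hn
  refine ⟨g N₀, c N₀, A.filter (fun N => L N = n), Finset.filter_subset _ _, ?_, ?_⟩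
  · rw [Finset.card_eq_sum_card_image L A]
    calc ∑ b ∈ A.image L, (A.filter (fun N => L N = b)).card
        ≤ ∑ b ∈ A.image L, (A.filter (fun N => L N = n)).card :=
          Finset.sum_le_sum fun b hb => hmax b hb
      _ = Λ.card * (A.filter (fun N => L N = n)).card := by
          rw [Finset.sum_const, smul_eq_mul]
      _ ≤ (2 * k + 3) * (A.filter (fun N => L N = n)).card := by
          apply Nat.mul_le_mul_right
          omega
  · intro N hN
    rw [Finset.mem_filter] at hN
    obtain ⟨h1, h2⟩ := hgeq N hN.1 N₀ hN₀ (by rw [hN.2, hN₀n])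
    obtain ⟨t, h3, h4⟩ := hst N hN.1
    rw [h1, h2] at h3 h4
    exact ⟨t, h3, h4⟩

end Pool.Agent.N767.MX
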