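import Pool.Agent.N604.MW.Stm2

/-!
# Bilinear sums with polynomial phase (project PW, TYPE2)
-/

set_option autoImplicit false

namespace Pool.Agent.N767.PW

open Finset Pool.Agent.N604.MW

/-- the terms of the bilinear sum -/
noncomputable def EE (k : ℕ) (α : ℕ → ℝ) (N N' m l : ℕ) : ℂ :=
  if N < m * l ∧ m * l ≤ N' then e (∑ j ∈ range (k + 1), α j * ((m * l : ℕ) : ℝ) ^ j) else 0

theorem e_mul_conj (x y : ℝ) : e x * (starRingEnd ℂ) (e y) = e (x - y) := by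
  unfold e
  rw [← Complex.exp_conj, ← Complex.exp_add]
  congr 1
  simp only [map_mul, Complex.conj_ofReal, Complex.conj_I, map_ofNat]
  push_cast
  ring

theorem norm_e (x : ℝ) : ‖e x‖ = 1 := by
  unfold e
  have : (2 * (Real.pi : ℂ) * x * Complex.I) = ((2 * Real.pi * x : ℝ) : ℂ) * Complex.I := by
    push_cast; ring
  rw [this, Complex.norm_exp_ofReal_mul_I]

theorem norm_EE_le (k : ℕ) (α : ℕ → ℝ) (N N' m l : ℕ) : ‖EE k α N N' m l‖ ≤ 1 := by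
  unfold EE
  split_ifs
  · rw [norm_e]
  · simp

/-- Cauchy-Schwarz, twice -/
theorem cs_bil (I J : Finset ℕ) (a b : ℕ → ℂ) (E : ℕ → ℕ → ℂ) (A B : ℝ)
    (hA : ∑ m ∈ I, ‖a m‖ ^ 2 ≤ A) (hB : ∑ l ∈ J, ‖b l‖ ^ 2 ≤ B) :
    (‖∑ m ∈ I, ∑ l ∈ J, a m * b l * E m l‖ ^ 2) ^ 2 ≤
      (A * B) ^ 2 * ∑ p ∈ I ×ˢ I, ‖∑ l ∈ J, E p.1 l * (starRingEnd ℂ) (E p.2 l)‖ ^ 2 := by
  have hA0 : 0 ≤ A := le_trans (Finset.sum_nonneg fun _ _ => by positivity) hA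
  have hB0 : 0 ≤ B := le_trans (Finset.sum_nonneg fun _ _ => by positivity) hB
  set T : ℝ := ∑ l ∈ J, ‖∑ m ∈ I, a m * E m l‖ ^ 2 with hT
  have hT0 : 0 ≤ T := Finset.sum_nonneg fun _ _ => by positivity
  have h1 : ‖∑ m ∈ I, ∑ l ∈ J, a m * b l * E m l‖ ^ 2 ≤ B * T := by
    have e1 : ∑ m ∈ I, ∑ l ∈ J, a m * b l * E m l = ∑ l ∈ J, b l * ∑ m ∈ I, a m * E m l := by
      rw [Finset.sum_comm]
      refine Finset.sum_congr rfl fun l _ => ?_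
      rw [Finset.mul_sum]
      refine Finset.sum_congr rfl fun m _ => ?_
      ring
    rw [e1]
    have e2 : ‖∑ l ∈ J, b l * ∑ m ∈ I, a m * E m l‖ ≤ ∑ l ∈ J, ‖b l‖ * ‖∑ m ∈ I, a m * E m l‖ := by
      refine (norm_sum_le _ _).trans (le_of_eq ?_)
      refine Finset.sum_congr rfl fun l _ => ?_
      rw [norm_mul]
    calc ‖∑ l ∈ J, b l * ∑ m ∈ I, a m * E m l‖ ^ 2
        ≤ (∑ l ∈ J, ‖b l‖ * ‖∑ m ∈ I, a m * E m l‖) ^ 2 := by gcongr
      _ ≤ (∑ l ∈ J, ‖b l‖ ^ 2) * ∑ l ∈ J, ‖∑ m ∈ I, a m * E m l‖ ^ 2 :=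
          Finset.sum_mul_sq_le_sq_mul_sq _ _ _
      _ ≤ B * T := by gcongr
  have h2 : T ≤ ∑ p ∈ I ×ˢ I, (‖a p.1‖ * ‖a p.2‖) *
      ‖∑ l ∈ J, E p.1 l * (starRingEnd ℂ) (E p.2 l)‖ := by
    have e1 : (T : ℂ) = ∑ p ∈ I ×ˢ I, (a p.1 * (starRingEnd ℂ) (a p.2)) *
        ∑ l ∈ J, E p.1 l * (starRingEnd ℂ) (E p.2 l) := by
      have e2 : (T : ℂ) = ∑ l ∈ J, ∑ p ∈ I ×ˢ I, (a p.1 * E p.1 l) *
          (starRingEnd ℂ) (a p.2 * E p.2 l) := by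
        rw [hT]
        push_cast
        refine Finset.sum_congr rfl fun l _ => ?_
        rw [← Complex.mul_conj', map_sum, Finset.sum_mul_sum, Finset.sum_product]
      rw [e2, Finset.sum_comm]
      refine Finset.sum_congr rfl fun p _ => ?_
      rw [Finset.mul_sum]
      refine Finset.sum_congr rfl fun l _ => ?_
      rw [map_mul]
      ring
    have e3 : T = ‖(T : ℂ)‖ := by rw [Complex.norm_real, Real.norm_eq_abs, abs_of_nonneg hT0]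
    rw [e3, e1]
    refine (norm_sum_le _ _).trans (le_of_eq ?_)
    refine Finset.sum_congr rfl fun p _ => ?_
    rw [norm_mul, norm_mul, RCLike.norm_conj]
  have h3 : T ^ 2 ≤ A ^ 2 * ∑ p ∈ I ×ˢ I, ‖∑ l ∈ J, E p.1 l * (starRingEnd ℂ) (E p.2 l)‖ ^ 2 := by
    calc T ^ 2 ≤ (∑ p ∈ I ×ˢ I, (‖a p.1‖ * ‖a p.2‖) *
          ‖∑ l ∈ J, E p.1 l * (starRingEnd ℂ) (E p.2 l)‖) ^ 2 := by gcongr
      _ ≤ (∑ p ∈ I ×ˢ I, (‖a p.1‖ * ‖a p.2‖) ^ 2) *
          ∑ p ∈ I ×ˢ I, ‖∑ l ∈ J, E p.1 l * (starRingEnd ℂ) (E p.2 l)‖ ^ 2 :=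
          Finset.sum_mul_sq_le_sq_mul_sq _ _ _
      _ = (∑ m ∈ I, ‖a m‖ ^ 2) ^ 2 *
          ∑ p ∈ I ×ˢ I, ‖∑ l ∈ J, E p.1 l * (starRingEnd ℂ) (E p.2 l)‖ ^ 2 := by
          congr 1
          rw [sq (∑ m ∈ I, ‖a m‖ ^ 2), Finset.sum_mul_sum, Finset.sum_product]
          refine Finset.sum_congr rfl fun _ _ => Finset.sum_congr rfl fun _ _ => ?_
          ring
      _ ≤ A ^ 2 * ∑ p ∈ I ×ˢ I, ‖∑ l ∈ J, E p.1 l * (starRingEnd ℂ) (E p.2 l)‖ ^ 2 := by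
          gcongr
  calc (‖∑ m ∈ I, ∑ l ∈ J, a m * b l * E m l‖ ^ 2) ^ 2 ≤ (B * T) ^ 2 := by gcongr
    _ = B ^ 2 * T ^ 2 := by ring
    _ ≤ B ^ 2 * (A ^ 2 * ∑ p ∈ I ×ˢ I, ‖∑ l ∈ J, E p.1 l * (starRingEnd ℂ) (E p.2 l)‖ ^ 2) := by
        gcongr
    _ = _ := by ring

theorem inner_eq (k : ℕ) (α : ℕ → ℝ) (N N' L m m' : ℕ) (hm : 0 < m) (hm' : 0 < m') (hL : 1 ≤ L)
    (hne : ∑ l ∈ Ioc L (2 * L), EE k α N N' m l * (starRingEnd ℂ) (EE k α N N' m' l) ≠ 0) :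
    ∃ A L₁ : ℕ, A + L₁ ≤ 3 * L ∧
      ∑ l ∈ Ioc L (2 * L), EE k α N N' m l * (starRingEnd ℂ) (EE k α N N' m' l) =
      ∑ n ∈ range L₁, e (∑ j ∈ range (k + 1), (α j * ((m : ℝ) ^ j - (m' : ℝ) ^ j)) *
        ((A + n : ℕ) : ℝ) ^ j) := by
  set x : ℕ := max L (max (N / m) (N / m')) with hx
  set y : ℕ := min (2 * L) (min (N' / m) (N' / m')) with hy
  have hset : (Ioc L (2 * L)).filter (fun l => (N < m * l ∧ m * l ≤ N') ∧ (N < m' * l ∧ m' * l ≤ N')) =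
      Ioc x y := by
    ext l
    simp only [Finset.mem_filter, Finset.mem_Ioc, hx, hy, max_lt_iff, le_min_iff]
    rw [Nat.div_lt_iff_lt_mul hm, Nat.div_lt_iff_lt_mul hm', Nat.le_div_iff_mul_le hm,
      Nat.le_div_iff_mul_le hm', mul_comm l m, mul_comm l m']
    tauto
  have hsum : ∑ l ∈ Ioc L (2 * L), EE k α N N' m l * (starRingEnd ℂ) (EE k α N N' m' l) =
      ∑ l ∈ Ioc x y, e (∑ j ∈ range (k + 1), (α j * ((m : ℝ) ^ j - (m' : ℝ) ^ j)) * (l : ℝ) ^ j) := by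
    rw [← hset, Finset.sum_filter]
    refine Finset.sum_congr rfl fun l _ => ?_
    unfold EE
    by_cases h1 : N < m * l ∧ m * l ≤ N'
    · by_cases h2 : N < m' * l ∧ m' * l ≤ N'
      · rw [if_pos h1, if_pos h2, if_pos ⟨h1, h2⟩, e_mul_conj, ← Finset.sum_sub_distrib]
        congr 1
        refine Finset.sum_congr rfl fun j _ => ?_
        push_cast
        ring
      · have h3 : ¬ ((N < m * l ∧ m * l ≤ N') ∧ (N < m' * l ∧ m' * l ≤ N')) := fun h => h2 h.2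
        rw [if_neg h2, if_neg h3, map_zero, mul_zero]
    · have h3 : ¬ ((N < m * l ∧ m * l ≤ N') ∧ (N < m' * l ∧ m' * l ≤ N')) := fun h => h1 h.1
      rw [if_neg h1, if_neg h3, zero_mul]
  rw [hsum] at hne ⊢
  have hxy : x < y := by
    by_contra hcon
    push Not at hcon
    rw [Finset.Ioc_eq_empty (by omega), Finset.sum_empty] at hne
    exact hne rfl
  refine ⟨x + 1, y - x, ?_, ?_⟩
  · have : y ≤ 2 * L := min_le_left _ _
    omega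
  · have h3 : Ioc x y = Ico (x + 1) (y + 1) := by
      ext l
      simp only [Finset.mem_Ioc, Finset.mem_Ico]
      omega
    rw [h3, Finset.sum_Ico_eq_sum_range]
    have h4 : y + 1 - (x + 1) = y - x := by omega
    rw [h4]

theorem fin_bound {B u X ML : ℝ} {k t : ℕ} (hB : 0 ≤ B) (hu : 1 ≤ u) (hX : 0 < X)
    (hML : X / u < ML) (ht : t ≤ k) : B / ML ^ t ≤ B * u ^ k / X ^ t := by
  have hu0 : 0 < u := by linarith
  have h0 : 0 < X / u := by positivity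
  calc B / ML ^ t ≤ B / (X / u) ^ t := by gcongr
    _ = B * u ^ t / X ^ t := by
        rw [div_pow]
        field_simp
    _ ≤ B * u ^ k / X ^ t := by
        gcongr

theorem type2 (h1 : S_WEYL) (h2 : S_RECUR) : S_TYPE2 := by
  classical
  intro k C0 hk
  obtain ⟨C1, m1, hW⟩ := h1 k 3 hk
  obtain ⟨C2, m2, hR⟩ := h2 k (by omega)
  obtain ⟨C3, m3, hR'⟩ := h2 (k - 1) (by omega)
  set D : ℕ := C0 + 1 with hD
  set K' : ℕ := (C1 + 1) * (2 * D ^ 2) ^ m1 with hK'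
  refine ⟨(C2 + 1) * (C3 + 1) * (2 * D ^ 4 * K') ^ (m2 + m3) * K',
    (4 + 2 * m1) * (m2 + m3) + 2 * m1 + k, ?_⟩
  intro α X N N' M L u a b A₂ B₂ hX hu hCM hCL hML hA hB ha hb hbig
  have hu0 : 0 < u := by linarith
  have hDr : (1 : ℝ) ≤ (D : ℝ) := by rw [hD]; push_cast; linarith [Nat.cast_nonneg (α := ℝ) C0]
  set U : ℝ := D * u with hU
  have hU1 : 1 ≤ U := by rw [hU]; nlinarith
  set Q : ℝ := (C1 + 1) * (2 * U ^ 2) ^ m1 with hQ
  have hU2 : 1 ≤ 2 * U ^ 2 := by nlinarith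
  have hQ1 : 1 ≤ Q := by
    have e1 : 1 ≤ (2 * U ^ 2) ^ m1 := one_le_pow₀ hU2
    have e2 : (0 : ℝ) ≤ C1 := Nat.cast_nonneg _
    exact one_le_mul_of_one_le_of_one_le (by linarith) e1
  set v : ℝ := 2 * U ^ 4 * Q with hv
  have hU4 : 1 ≤ U ^ 4 := one_le_pow₀ hU1
  have hv1 : 1 ≤ v :=
    one_le_mul_of_one_le_of_one_le (by linarith : (1 : ℝ) ≤ 2 * U ^ 4) hQ1
  set B2 : ℝ := (C2 + 1) * v ^ m2 with hB2
  set B3 : ℝ := (C3 + 1) * v ^ m3 with hB3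
  have hv2 : 1 ≤ v ^ m2 := one_le_pow₀ hv1
  have hv3 : 1 ≤ v ^ m3 := one_le_pow₀ hv1
  have hC2 : (0 : ℝ) ≤ C2 := Nat.cast_nonneg _
  have hC3 : (0 : ℝ) ≤ C3 := Nat.cast_nonneg _
  have hC1 : (0 : ℝ) ≤ C1 := Nat.cast_nonneg _
  have hB21 : 1 ≤ B2 := one_le_mul_of_one_le_of_one_le (by linarith) hv2
  have hB31 : 1 ≤ B3 := one_le_mul_of_one_le_of_one_le (by linarith) hv3
  set BB : ℝ := B2 * B3 * Q with hBB
  have hBB1 : 1 ≤ BB := by
    rw [hBB]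
    exact one_le_mul_of_one_le_of_one_le (one_le_mul_of_one_le_of_one_le hB21 hB31) hQ1
  have huk : 1 ≤ u ^ k := one_le_pow₀ hu
  -- the constant
  have hQK : Q = K' * u ^ (2 * m1) := by
    rw [hQ, hK', hU]
    push_cast
    have e1 : (2 * ((D : ℝ) * u) ^ 2) = (2 * (D : ℝ) ^ 2) * u ^ 2 := by ring
    rw [e1, mul_pow _ (u ^ 2), ← pow_mul]
    ring
  have hvK : v = (2 * D ^ 4 * K') * u ^ (4 + 2 * m1) := by
    rw [hv, hQK, hU]
    ring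
  have hconst : (((C2 + 1) * (C3 + 1) * (2 * D ^ 4 * K') ^ (m2 + m3) * K' : ℕ) : ℝ) *
      u ^ ((4 + 2 * m1) * (m2 + m3) + 2 * m1 + k) = BB * u ^ k := by
    have e1 : v ^ m2 * v ^ m3 = (2 * D ^ 4 * K') ^ (m2 + m3) * u ^ ((4 + 2 * m1) * (m2 + m3)) := by
      rw [← pow_add, hvK, mul_pow, ← pow_mul]
    have e2 : BB = (C2 + 1) * (C3 + 1) * (v ^ m2 * v ^ m3) * Q := by
      rw [hBB, hB2, hB3]; ring
    rw [e2, e1, hQK]
    push_cast
    rw [pow_add, pow_add]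
    ring
  rw [hconst] at hCM hCL ⊢
  have hBBu : BB ≤ BB * u ^ k := le_mul_of_one_le_right (by linarith) huk
  have hM1 : (1 : ℝ) ≤ M := by linarith
  have hL1 : (1 : ℝ) ≤ L := by linarith
  have hM1' : 1 ≤ M := by exact_mod_cast hM1
  have hL1' : 1 ≤ L := by exact_mod_cast hL1
  have hXr : (1 : ℝ) ≤ X := by exact_mod_cast hX
  set I : Finset ℕ := Ioc M (2 * M) with hI
  set J : Finset ℕ := Ioc L (2 * L) with hJ
  have hIc : (I.card : ℝ) = M := by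
    rw [hI, Nat.card_Ioc]
    have : 2 * M - M = M := by omega
    rw [this]
  have hJc : (J.card : ℝ) = L := by
    rw [hJ, Nat.card_Ioc]
    have : 2 * L - L = L := by omega
    rw [this]
  set S : ℕ × ℕ → ℂ := fun p => ∑ l ∈ J, EE k α N N' p.1 l * (starRingEnd ℂ) (EE k α N N' p.2 l)
    with hS
  have hSL : ∀ p, ‖S p‖ ≤ L := by
    intro p
    refine (norm_sum_le _ _).trans ?_
    rw [← hJc, Finset.cast_card]
    refine Finset.sum_le_sum fun l _ => ?_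
    rw [norm_mul, RCLike.norm_conj]
    exact mul_le_one₀ (norm_EE_le _ _ _ _ _ _) (norm_nonneg _) (norm_EE_le _ _ _ _ _ _)
  set Sig : ℝ := ∑ p ∈ I ×ˢ I, ‖S p‖ ^ 2 with hSig
  have hcs := cs_bil I J a b (EE k α N N') (A₂ * M) (B₂ * L) ha hb
  have hkey : ((X : ℝ) / u) ^ 4 < ((M : ℝ) * L) ^ 2 * Sig := by
    have e1 : (A₂ * B₂ * ((X : ℝ) / u) ^ 2) ^ 2 < (A₂ * M * (B₂ * L)) ^ 2 * Sig := by
      refine lt_of_lt_of_le ?_ hcs
      have e2 : 0 ≤ A₂ * B₂ * ((X : ℝ) / u) ^ 2 := by positivity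
      exact pow_lt_pow_left₀ hbig e2 two_ne_zero
    have e3 : (A₂ * B₂) ^ 2 * ((X : ℝ) / u) ^ 4 < (A₂ * B₂) ^ 2 * (((M : ℝ) * L) ^ 2 * Sig) := by
      calc (A₂ * B₂) ^ 2 * ((X : ℝ) / u) ^ 4 = (A₂ * B₂ * ((X : ℝ) / u) ^ 2) ^ 2 := by ring
        _ < (A₂ * M * (B₂ * L)) ^ 2 * Sig := e1
        _ = _ := by ring
    exact lt_of_mul_lt_mul_left e3 (by positivity)
  have hXu0 : 0 < (X : ℝ) / u := by positivity
  have hXML : (X : ℝ) / u < (M : ℝ) * L := by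
    have e1 : Sig ≤ ((M : ℝ) * L) ^ 2 := by
      calc Sig ≤ ∑ p ∈ I ×ˢ I, (L : ℝ) ^ 2 := by
            refine Finset.sum_le_sum fun p _ => ?_
            have := hSL p
            gcongr
        _ = ((M : ℝ) * L) ^ 2 := by
            rw [Finset.sum_const, Finset.card_product, nsmul_eq_mul]
            push_cast
            rw [hIc]
            ring
    have e2 : ((X : ℝ) / u) ^ 4 < ((M : ℝ) * L) ^ 4 := by
      refine lt_of_lt_of_le hkey ?_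
      calc ((M : ℝ) * L) ^ 2 * Sig ≤ ((M : ℝ) * L) ^ 2 * ((M : ℝ) * L) ^ 2 := by gcongr
        _ = _ := by ring
    exact lt_of_pow_lt_pow_left₀ 4 (by positivity) e2
  have hMLX : (M : ℝ) * L / U ≤ (X : ℝ) / u := by
    have e1 : (M : ℝ) * L ≤ D * X := by
      have e2 : (M : ℝ) * L ≤ C0 * X := by exact_mod_cast hML
      have e3 : (D : ℝ) = C0 + 1 := by rw [hD]; push_cast; ring
      rw [e3]
      nlinarith
    rw [hU, div_le_div_iff₀ (by positivity) hu0]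
    calc (M : ℝ) * L * u ≤ (D * X) * u := by gcongr
      _ = X * (D * u) := by ring
  have hSigLow : ((M : ℝ) * L) ^ 2 / U ^ 4 < Sig := by
    have e1 : ((M : ℝ) * L / U) ^ 4 < ((M : ℝ) * L) ^ 2 * Sig := by
      refine lt_of_le_of_lt ?_ hkey
      gcongr
    have e2 : ((M : ℝ) * L) ^ 2 * (((M : ℝ) * L) ^ 2 / U ^ 4) < ((M : ℝ) * L) ^ 2 * Sig := by
      calc ((M : ℝ) * L) ^ 2 * (((M : ℝ) * L) ^ 2 / U ^ 4) = ((M : ℝ) * L / U) ^ 4 := by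
            rw [div_pow]; ring
        _ < _ := e1
    exact lt_of_mul_lt_mul_left e2 (by positivity)
  -- many good pairs
  set G : Finset (ℕ × ℕ) := (I ×ˢ I).filter (fun p => (L : ℝ) ^ 2 / (2 * U ^ 4) ≤ ‖S p‖ ^ 2) with hG
  have hGcard : (M : ℝ) ^ 2 / (2 * U ^ 4) < G.card := by
    have e1 : Sig ≤ G.card * (L : ℝ) ^ 2 + (M : ℝ) ^ 2 * ((L : ℝ) ^ 2 / (2 * U ^ 4)) := by
      rw [hSig, ← Finset.sum_filter_add_sum_filter_not (I ×ˢ I)
        (fun p => (L : ℝ) ^ 2 / (2 * U ^ 4) ≤ ‖S p‖ ^ 2)]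
      refine add_le_add ?_ ?_
      · rw [← hG]
        calc ∑ p ∈ G, ‖S p‖ ^ 2 ≤ ∑ p ∈ G, (L : ℝ) ^ 2 := by
              refine Finset.sum_le_sum fun p _ => ?_
              have := hSL p
              gcongr
          _ = _ := by rw [Finset.sum_const, nsmul_eq_mul]
      · calc ∑ p ∈ (I ×ˢ I).filter (fun p => ¬ (L : ℝ) ^ 2 / (2 * U ^ 4) ≤ ‖S p‖ ^ 2), ‖S p‖ ^ 2
              ≤ ∑ p ∈ (I ×ˢ I).filter (fun p => ¬ (L : ℝ) ^ 2 / (2 * U ^ 4) ≤ ‖S p‖ ^ 2),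
                (L : ℝ) ^ 2 / (2 * U ^ 4) := by
              refine Finset.sum_le_sum fun p hp => ?_
              have := (Finset.mem_filter.1 hp).2
              linarith
          _ ≤ ∑ p ∈ (I ×ˢ I), (L : ℝ) ^ 2 / (2 * U ^ 4) := by
              refine Finset.sum_le_sum_of_subset_of_nonneg (Finset.filter_subset _ _) ?_
              intro _ _ _
              positivity
          _ = _ := by
              rw [Finset.sum_const, Finset.card_product, nsmul_eq_mul]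
              push_cast
              rw [hIc]
              ring
    have e2 : ((M : ℝ) * L) ^ 2 / U ^ 4 = (M : ℝ) ^ 2 / (2 * U ^ 4) * L ^ 2 +
        (M : ℝ) ^ 2 * ((L : ℝ) ^ 2 / (2 * U ^ 4)) := by
      field_simp
      ring
    have e3 : (M : ℝ) ^ 2 / (2 * U ^ 4) * L ^ 2 < G.card * (L : ℝ) ^ 2 := by linarith
    exact lt_of_mul_lt_mul_right e3 (by positivity)
  -- rational approximations for the good pairs
  have hGq : ∀ p ∈ G, ∃ q : ℕ, 1 ≤ q ∧ (q : ℝ) ≤ Q ∧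
      (∃ a : ℤ, |q * (α k * ((p.1 : ℝ) ^ k - (p.2 : ℝ) ^ k)) - a| ≤ Q / (L : ℝ) ^ k) ∧
      ∃ b : ℤ, |q * (α (k - 1) * ((p.1 : ℝ) ^ (k - 1) - (p.2 : ℝ) ^ (k - 1))) - b| ≤
        Q / (L : ℝ) ^ (k - 1) := by
    intro p hp
    rw [hG, Finset.mem_filter, Finset.mem_product, hI, Finset.mem_Ioc, Finset.mem_Ioc] at hp
    obtain ⟨⟨hp1, hp2⟩, hp3⟩ := hp
    have hSpos : (L : ℝ) ≤ 2 * U ^ 2 * ‖S p‖ := by
      have e1 : (L : ℝ) ^ 2 ≤ (2 * U ^ 2 * ‖S p‖) ^ 2 := by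
        rw [div_le_iff₀ (by positivity)] at hp3
        have e2 : (2 * U ^ 2 * ‖S p‖) ^ 2 = 2 * (‖S p‖ ^ 2 * (2 * U ^ 4)) := by ring
        rw [e2]
        nlinarith [sq_nonneg (L : ℝ)]
      exact le_of_sq_le_sq e1 (by positivity)
    have hne : S p ≠ 0 := by
      intro h0
      rw [h0, norm_zero, mul_zero] at hSpos
      linarith
    obtain ⟨A, L₁, hA1, hA2⟩ := inner_eq k α N N' L p.1 p.2 (by omega) (by omega) hL1' hne
    have hS2 : S p = ∑ n ∈ range L₁, e (∑ j ∈ range (k + 1),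
        (α j * ((p.1 : ℝ) ^ j - (p.2 : ℝ) ^ j)) * ((A + n : ℕ) : ℝ) ^ j) := hA2
    rw [hS2] at hSpos
    obtain ⟨q, hq1, hq2, ⟨a', ha'⟩, ⟨b', hb'⟩⟩ := hW (fun j => α j * ((p.1 : ℝ) ^ j - (p.2 : ℝ) ^ j))
      L A L₁ (2 * U ^ 2) hL1' hA1 hU2 hSpos
    have hQle : (C1 : ℝ) * (2 * U ^ 2) ^ m1 ≤ Q := by
      rw [hQ]
      have : 0 ≤ (2 * U ^ 2) ^ m1 := by positivity
      nlinarith
    refine ⟨q, hq1, hq2.trans hQle, ⟨a', ha'.trans ?_⟩, ⟨b', hb'.trans ?_⟩⟩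
    · gcongr
    · gcongr
  choose! q hq1 hq2 hq3 hq4 using hGq
  -- pigeonhole
  set TT : Finset (ℕ × ℕ) := (Finset.Icc 1 ⌊Q⌋₊) ×ˢ I with hTT
  have hmaps : ∀ p ∈ G, (q p, p.2) ∈ TT := by
    intro p hp
    rw [hTT, Finset.mem_product, Finset.mem_Icc]
    refine ⟨⟨hq1 p hp, Nat.le_floor (hq2 p hp)⟩, ?_⟩
    rw [hG, Finset.mem_filter, Finset.mem_product] at hp
    exact hp.1.2
  have hGpos : 0 < G.card := by
    have e1 : (0 : ℝ) < G.card := lt_of_le_of_lt (by positivity) hGcard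
    exact_mod_cast e1
  have hTne : TT.Nonempty := by
    obtain ⟨p, hp⟩ := Finset.card_pos.1 hGpos
    exact ⟨_, hmaps p hp⟩
  have hTcard : (TT.card : ℝ) ≤ Q * M := by
    rw [hTT, Finset.card_product, Nat.card_Icc]
    push_cast
    rw [hIc]
    have : ((⌊Q⌋₊ : ℕ) : ℝ) ≤ Q := Nat.floor_le (by linarith)
    gcongr
  have hv0 : 0 < v := by linarith
  have hpig : TT.card • ((M : ℝ) / v) ≤ (G.card : ℝ) := by
    rw [nsmul_eq_mul]
    calc (TT.card : ℝ) * ((M : ℝ) / v) ≤ (Q * M) * ((M : ℝ) / v) := by gcongr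
      _ = (M : ℝ) ^ 2 / (2 * U ^ 4) := by
          rw [hv]
          field_simp
      _ ≤ G.card := hGcard.le
  obtain ⟨y, hyT, hy⟩ := Finset.exists_le_card_fiber_of_nsmul_le_card_of_maps_to hmaps hTne hpig
  obtain ⟨q0, m'⟩ := y
  set FF : Finset (ℕ × ℕ) := G.filter (fun p => (q p, p.2) = (q0, m')) with hFF
  have hFprop : ∀ p ∈ FF, p ∈ G ∧ q p = q0 ∧ p.2 = m' := by
    intro p hp
    rw [hFF, Finset.mem_filter, Prod.mk.injEq] at hp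
    exact hp
  set SS : Finset ℕ := FF.image Prod.fst with hSS
  have hSScard : SS.card = FF.card := by
    apply Finset.card_image_of_injOn
    intro p hp p' hp' h
    have e1 := hFprop p hp
    have e2 := hFprop p' hp'
    exact Prod.ext h (e1.2.2.trans e2.2.2.symm)
  have hSSM : (M : ℝ) ≤ v * SS.card := by
    rw [hSScard]
    rw [div_le_iff₀ hv0] at hy
    linarith
  have hSSrange : ∀ n ∈ SS, M < n ∧ n ≤ 2 * M := by
    intro n hn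
    obtain ⟨p, hp, rfl⟩ := Finset.mem_image.1 hn
    have e1 := (hFprop p hp).1
    rw [hG, Finset.mem_filter, Finset.mem_product, hI, Finset.mem_Ioc] at e1
    exact e1.1.1
  have hFne : FF.Nonempty := by
    rw [← Finset.card_pos]
    have e1 : (0 : ℝ) < (FF.card : ℝ) := lt_of_lt_of_le (by positivity) hy
    exact_mod_cast e1
  have hq0 : 1 ≤ q0 ∧ (q0 : ℝ) ≤ Q := by
    obtain ⟨p, hp⟩ := hFne
    have e1 := hFprop p hp
    rw [← e1.2.1]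
    exact ⟨hq1 p e1.1, hq2 p e1.1⟩
  have happ1 : ∀ n ∈ SS, ∃ a : ℤ, |(q0 * α k) * (n : ℝ) ^ k - (q0 * α k) * (m' : ℝ) ^ k - a| ≤
      Q / (L : ℝ) ^ k := by
    intro n hn
    obtain ⟨p, hp, rfl⟩ := Finset.mem_image.1 hn
    have e1 := hFprop p hp
    obtain ⟨a', ha'⟩ := hq3 p e1.1
    refine ⟨a', ?_⟩
    rw [e1.2.1, e1.2.2] at ha'
    have e2 : (q0 * α k) * (p.1 : ℝ) ^ k - (q0 * α k) * (m' : ℝ) ^ k - a' =
        q0 * (α k * ((p.1 : ℝ) ^ k - (m' : ℝ) ^ k)) - a' := by ring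
    rw [e2]
    exact ha'
  have happ2 : ∀ n ∈ SS, ∃ a : ℤ, |(q0 * α (k - 1)) * (n : ℝ) ^ (k - 1) -
      (q0 * α (k - 1)) * (m' : ℝ) ^ (k - 1) - a| ≤ Q / (L : ℝ) ^ (k - 1) := by
    intro n hn
    obtain ⟨p, hp, rfl⟩ := Finset.mem_image.1 hn
    have e1 := hFprop p hp
    obtain ⟨a', ha'⟩ := hq4 p e1.1
    refine ⟨a', ?_⟩
    rw [e1.2.1, e1.2.2] at ha'
    have e2 : (q0 * α (k - 1)) * (p.1 : ℝ) ^ (k - 1) - (q0 * α (k - 1)) * (m' : ℝ) ^ (k - 1) - a' =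
        q0 * (α (k - 1) * ((p.1 : ℝ) ^ (k - 1) - (m' : ℝ) ^ (k - 1))) - a' := by ring
    rw [e2]
    exact ha'
  -- small epsilon
  have hLpow : ∀ t : ℕ, 1 ≤ t → Q / (L : ℝ) ^ t ≤ Q / L := by
    intro t ht
    have e1 : (L : ℝ) ≤ (L : ℝ) ^ t := le_self_pow₀ hL1 (by omega)
    gcongr
  have hQ0 : 0 ≤ Q := by linarith
  have hC2B : (C2 : ℝ) * v ^ m2 ≤ B2 := by rw [hB2]; gcongr; linarith
  have hC3B : (C3 : ℝ) * v ^ m3 ≤ B3 := by rw [hB3]; gcongr; linarith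
  have hB2Q : B2 * Q ≤ BB := by
    have e1 : BB = (B2 * Q) * B3 := by rw [hBB]; ring
    rw [e1]
    exact le_mul_of_one_le_right (by positivity) hB31
  have hB3Q : B3 * Q ≤ BB := by
    have e1 : BB = (B3 * Q) * B2 := by rw [hBB]; ring
    rw [e1]
    exact le_mul_of_one_le_right (by positivity) hB21
  have hB2B : B2 ≤ BB := (le_mul_of_one_le_right (by positivity) hQ1).trans hB2Q
  have hB3B : B3 ≤ BB := (le_mul_of_one_le_right (by positivity) hQ1).trans hB3Q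
  have heps : ∀ (Bx : ℝ) (t : ℕ), 0 ≤ Bx → Bx * Q ≤ BB → 1 ≤ t → Bx * (Q / (L : ℝ) ^ t) ≤ 1 := by
    intro Bx t hBx hBx2 ht
    calc Bx * (Q / (L : ℝ) ^ t) ≤ Bx * (Q / L) := by
          have := hLpow t ht
          gcongr
      _ = Bx * Q / L := by ring
      _ ≤ 1 := by
          rw [div_le_one (by linarith)]
          linarith
  obtain ⟨q1, hq11, hq12, a1, ha1⟩ := hR (q0 * α k) ((q0 * α k) * (m' : ℝ) ^ k) (Q / (L : ℝ) ^ k) v M SS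
    hv1 (by positivity) (heps _ k (by positivity)
      ((mul_le_mul_of_nonneg_right hC2B hQ0).trans hB2Q) (by omega))
    (by linarith) hSSrange hSSM happ1
  obtain ⟨q2, hq21, hq22, a2, ha2⟩ := hR' (q0 * α (k - 1)) ((q0 * α (k - 1)) * (m' : ℝ) ^ (k - 1))
    (Q / (L : ℝ) ^ (k - 1)) v M SS hv1 (by positivity)
    (heps _ (k - 1) (by positivity)
      ((mul_le_mul_of_nonneg_right hC3B hQ0).trans hB3Q) (by omega))
    (by linarith) hSSrange hSSM happ2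
  have hq12' : (q1 : ℝ) ≤ B2 := hq12.trans hC2B
  have hq22' : (q2 : ℝ) ≤ B3 := hq22.trans hC3B
  refine ⟨q0 * q1 * q2, ?_, ?_, ⟨a1 * q2, ?_⟩, ⟨a2 * q1, ?_⟩⟩
  · exact Nat.mul_pos (Nat.mul_pos hq0.1 hq11) hq21
  · refine le_trans ?_ hBBu
    push_cast
    calc (q0 : ℝ) * q1 * q2 ≤ Q * B2 * B3 := by
          have := hq0.2
          gcongr
      _ = BB := by rw [hBB]; ring
  · refine le_trans ?_ (fin_bound (k := k) (t := k) (by linarith : (0 : ℝ) ≤ BB) hu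
      (by linarith) hXML le_rfl)
    push_cast
    have e1 : ((q0 : ℝ) * q1 * q2) * α k - a1 * q2 = q2 * (q1 * (q0 * α k) - a1) := by ring
    rw [e1, abs_mul, abs_of_nonneg (Nat.cast_nonneg _)]
    calc (q2 : ℝ) * |q1 * (q0 * α k) - a1| ≤ B3 * (C2 * v ^ m2 * (Q / (L : ℝ) ^ k) / (M : ℝ) ^ k) := by
          gcongr
      _ ≤ B3 * (B2 * (Q / (L : ℝ) ^ k) / (M : ℝ) ^ k) := by gcongr
      _ = BB / ((M : ℝ) * L) ^ k := by
          rw [hBB, mul_pow]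
          field_simp
  · refine le_trans ?_ (fin_bound (k := k) (t := k - 1) (by linarith : (0 : ℝ) ≤ BB) hu
      (by linarith) hXML (by omega))
    push_cast
    have e1 : ((q0 : ℝ) * q1 * q2) * α (k - 1) - a2 * q1 = q1 * (q2 * (q0 * α (k - 1)) - a2) := by
      ring
    rw [e1, abs_mul, abs_of_nonneg (Nat.cast_nonneg _)]
    calc (q1 : ℝ) * |q2 * (q0 * α (k - 1)) - a2| ≤
        B2 * (C3 * v ^ m3 * (Q / (L : ℝ) ^ (k - 1)) / (M : ℝ) ^ (k - 1)) := by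
          gcongr
      _ ≤ B2 * (B3 * (Q / (L : ℝ) ^ (k - 1)) / (M : ℝ) ^ (k - 1)) := by gcongr
      _ = BB / ((M : ℝ) * L) ^ (k - 1) := by
          rw [hBB, mul_pow]
          field_simp

end Pool.Agent.N767.PW
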